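import Mathlib

/-!
Covering a linear order by functional matrices and their transposes: the exact value of `m(n)`.
-/

namespace Pool.Agent.Results.MP_88b6d1_co.ExactValue

open Matrix

/-- The matrix of the transformation `f`. -/
def transf {n : ℕ} (f : Fin n → Fin n) : Matrix (Fin n) (Fin n) Bool :=
  fun i j => decide (f i = j)

/-- The Boolean sum (entrywise maximum) of a family of Boolean matrices. -/
def boolSum {n k : ℕ} (A : Fin k → Matrix (Fin n) (Fin n) Bool) : Matrix (Fin n) (Fin n) Bool :=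
  fun i j => decide (∃ l, A l i j = true)

/-- The matrix `L_n` of the linear order. -/
def orderMat (n : ℕ) : Matrix (Fin n) (Fin n) Bool := fun i j => decide (i ≤ j)

/-- `L_n ≤ A_1 + ⋯ + A_k` for some `A_l`, each a transformation matrix or a transposed one. -/
def Covers (n k : ℕ) : Prop :=
  ∃ A : Fin k → Matrix (Fin n) (Fin n) Bool,
    (∀ l, (∃ f, A l = transf f) ∨ (∃ f, A l = (transf f)ᵀ)) ∧
    ∀ i j, orderMat n i j ≤ boolSum A i j

theorem covers_iff {n k : ℕ} : Covers n k ↔ ∃ A : Fin k → Matrix (Fin n) (Fin n) Bool,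
    (∀ l, (∃ f, A l = transf f) ∨ (∃ f, A l = (transf f)ᵀ)) ∧
    ∀ i j, i ≤ j → ∃ l, A l i j = true := by
  have key : ∀ (A : Fin k → Matrix (Fin n) (Fin n) Bool) (i j : Fin n),
      (orderMat n i j ≤ boolSum A i j) ↔ (i ≤ j → ∃ l, A l i j = true) := by
    intro A i j
    rw [Bool.le_iff_imp]
    simp only [orderMat, boolSum, decide_eq_true_eq]
  constructor
  · rintro ⟨A, h1, h2⟩
    exact ⟨A, h1, fun i j => (key A i j).1 (h2 i j)⟩
  · rintro ⟨A, h1, h2⟩
    exact ⟨A, h1, fun i j => (key A i j).2 (h2 i j)⟩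

/-- The number of inversions inside a finite set of a linear order. -/
theorem inv_card {n : ℕ} (T : Finset (Fin n)) :
    2 * ((T ×ˢ T).filter (fun p => p.2 < p.1)).card = T.card * T.card - T.card := by
  rw [← Finset.offDiag_card]
  have h1 : T.offDiag = ((T ×ˢ T).filter (fun p => p.2 < p.1)) ∪
      ((T ×ˢ T).filter (fun p => p.1 < p.2)) := by
    ext p
    simp only [Finset.mem_offDiag, Finset.mem_union, Finset.mem_filter, Finset.mem_product]
    constructor
    · rintro ⟨h1, h2, h3⟩
      rcases lt_or_gt_of_ne h3 with h | h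
      · right; exact ⟨⟨h1, h2⟩, h⟩
      · left; exact ⟨⟨h1, h2⟩, h⟩
    · rintro (⟨⟨h1, h2⟩, h3⟩ | ⟨⟨h1, h2⟩, h3⟩)
      · exact ⟨h1, h2, h3.ne'⟩
      · exact ⟨h1, h2, h3.ne⟩
  have h2 : Disjoint ((T ×ˢ T).filter (fun p => p.2 < p.1))
      ((T ×ˢ T).filter (fun p => p.1 < p.2)) := by
    rw [Finset.disjoint_left]
    intro p h3 h4
    simp only [Finset.mem_filter] at h3 h4
    exact absurd h3.2 (not_lt.2 h4.2.le)
  have h3 : ((T ×ˢ T).filter (fun p => p.1 < p.2)).card =
      ((T ×ˢ T).filter (fun p => p.2 < p.1)).card := by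
    apply Finset.card_bij (fun p _ => (p.2, p.1))
    · intro p hp
      simp only [Finset.mem_filter, Finset.mem_product] at hp ⊢
      exact ⟨⟨hp.1.2, hp.1.1⟩, hp.2⟩
    · intro p _ q _ h
      simp only [Prod.mk.injEq] at h
      exact Prod.ext h.2 h.1
    · intro p hp
      simp only [Finset.mem_filter, Finset.mem_product] at hp
      exact ⟨(p.2, p.1), by simp only [Finset.mem_filter, Finset.mem_product]; exact
        ⟨⟨hp.1.2, hp.1.1⟩, hp.2⟩, rfl⟩
  rw [h1, Finset.card_union_of_disjoint h2, h3]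
  ring

/-! ### Lower bound -/

theorem block_card_le {n k t : ℕ} (ht : t ≤ n) (A : Fin k → Matrix (Fin n) (Fin n) Bool)
    (h1 : ∀ l, (∃ f, A l = transf f) ∨ (∃ f, A l = (transf f)ᵀ))
    (h2 : ∀ i j, i ≤ j → ∃ l, A l i j = true) :
    (((Finset.univ.filter (fun i : Fin n => (i : ℕ) < t)) ×ˢ
      (Finset.univ.filter (fun j : Fin n => n - t ≤ (j : ℕ)))).filter
        (fun p => p.1 ≤ p.2)).card ≤ k * t := by
  set A0 := (Finset.univ.filter (fun i : Fin n => (i : ℕ) < t)) with hA0
  set B0 := (Finset.univ.filter (fun j : Fin n => n - t ≤ (j : ℕ))) with hB0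
  have cA : A0.card = t := by
    have := Fin.card_filter_val_lt (n := n) (m := t)
    rw [hA0, this]
    omega
  have cB : B0.card = t := by
    have e : B0 = Finset.univ \ (Finset.univ.filter (fun j : Fin n => (j : ℕ) < n - t)) := by
      ext j
      simp [hB0]
    rw [e, Finset.card_sdiff_of_subset (Finset.subset_univ _), Fin.card_filter_val_lt]
    simp
    omega
  set S := (A0 ×ˢ B0).filter (fun p => p.1 ≤ p.2) with hS
  have hsub : S ⊆ Finset.univ.biUnion (fun l => S.filter (fun p => A l p.1 p.2 = true)) := by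
    intro p hp
    rw [Finset.mem_biUnion]
    have hp' := hp
    rw [hS, Finset.mem_filter] at hp'
    obtain ⟨l, hl⟩ := h2 p.1 p.2 hp'.2
    exact ⟨l, Finset.mem_univ l, Finset.mem_filter.2 ⟨hp, hl⟩⟩
  have hle : ∀ l, (S.filter (fun p => A l p.1 p.2 = true)).card ≤ t := by
    intro l
    rcases h1 l with ⟨f, hf⟩ | ⟨f, hf⟩
    · rw [← cA]
      apply Finset.card_le_card_of_injOn (fun p => p.1)
      · intro p hp
        simp only [hS, Finset.coe_filter, Finset.mem_filter, Finset.mem_product,
          Set.mem_ofPred_eq] at hp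
        exact hp.1.1.1
      · intro p hp q hq hpq
        simp only [Finset.coe_filter, Set.mem_ofPred_eq] at hp hq
        rw [hf] at hp hq
        simp only [transf, decide_eq_true_eq] at hp hq
        simp only at hpq
        refine Prod.ext hpq ?_
        rw [← hp.2, ← hq.2, hpq]
    · rw [← cB]
      apply Finset.card_le_card_of_injOn (fun p => p.2)
      · intro p hp
        simp only [hS, Finset.coe_filter, Finset.mem_filter, Finset.mem_product,
          Set.mem_ofPred_eq] at hp
        exact hp.1.1.2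
      · intro p hp q hq hpq
        simp only [Finset.coe_filter, Set.mem_ofPred_eq] at hp hq
        rw [hf] at hp hq
        simp only [transf, Matrix.transpose_apply, decide_eq_true_eq] at hp hq
        simp only at hpq
        refine Prod.ext ?_ hpq
        rw [← hp.2, ← hq.2, hpq]
  calc S.card ≤ (Finset.univ.biUnion (fun l => S.filter (fun p => A l p.1 p.2 = true))).card :=
        Finset.card_le_card hsub
    _ ≤ ∑ l : Fin k, (S.filter (fun p => A l p.1 p.2 = true)).card := Finset.card_biUnion_le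
    _ ≤ ∑ _l : Fin k, t := Finset.sum_le_sum fun l _ => hle l
    _ = k * t := by simp

theorem block_card_ge {n t : ℕ} (ht : t ≤ n) :
    t * t ≤ (((Finset.univ.filter (fun i : Fin n => (i : ℕ) < t)) ×ˢ
      (Finset.univ.filter (fun j : Fin n => n - t ≤ (j : ℕ)))).filter
        (fun p => p.1 ≤ p.2)).card + ((Finset.univ.filter
          (fun i : Fin n => (i : ℕ) < t ∧ n - t ≤ (i : ℕ)) ×ˢ Finset.univ.filter
          (fun i : Fin n => (i : ℕ) < t ∧ n - t ≤ (i : ℕ))).filter (fun p => p.2 < p.1)).card := by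
  set A0 := (Finset.univ.filter (fun i : Fin n => (i : ℕ) < t)) with hA0
  set B0 := (Finset.univ.filter (fun j : Fin n => n - t ≤ (j : ℕ))) with hB0
  have cA : A0.card = t := by
    have := Fin.card_filter_val_lt (n := n) (m := t)
    rw [hA0, this]
    omega
  have cB : B0.card = t := by
    have e : B0 = Finset.univ \ (Finset.univ.filter (fun j : Fin n => (j : ℕ) < n - t)) := by
      ext j
      simp [hB0]
    rw [e, Finset.card_sdiff_of_subset (Finset.subset_univ _), Fin.card_filter_val_lt]
    simp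
    omega
  have h1 : t * t = (A0 ×ˢ B0).card := by rw [Finset.card_product, cA, cB]
  rw [h1, ← Finset.card_filter_add_card_filter_not (s := A0 ×ˢ B0) (fun p => p.1 ≤ p.2)]
  apply Nat.add_le_add_left
  apply Finset.card_le_card
  intro p hp
  simp only [hA0, hB0, Finset.mem_filter, Finset.mem_product, Finset.mem_univ, true_and,
    not_le] at hp ⊢
  obtain ⟨⟨h3, h4⟩, h5⟩ := hp
  have h6 : (p.2 : ℕ) < (p.1 : ℕ) := h5
  exact ⟨⟨⟨h3, by omega⟩, ⟨by omega, h4⟩⟩, h5⟩

theorem mid_card {n t : ℕ} (ht : t ≤ n) : (Finset.univ.filter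
    (fun i : Fin n => (i : ℕ) < t ∧ n - t ≤ (i : ℕ))).card = t - (n - t) := by
  have e : Finset.univ.filter (fun i : Fin n => (i : ℕ) < t ∧ n - t ≤ (i : ℕ)) =
      Finset.univ.filter (fun i : Fin n => (i : ℕ) < t) \
        (Finset.univ.filter (fun j : Fin n => (j : ℕ) < min t (n - t))) := by
    ext j
    simp only [Finset.mem_filter, Finset.mem_univ, true_and, Finset.mem_sdiff]
    omega
  rw [e, Finset.card_sdiff_of_subset, Fin.card_filter_val_lt, Fin.card_filter_val_lt]
  · omega
  · intro j
    simp only [Finset.mem_filter, Finset.mem_univ, true_and]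
    omega

theorem lower {n k : ℕ} (h : Covers n k) : 2 * n + 1 ≤ k + Nat.sqrt (2 * n ^ 2 + 2 * n + 1) := by
  rw [covers_iff] at h
  obtain ⟨A, h1, h2⟩ := h
  by_contra hcon
  push Not at hcon
  obtain ⟨x, hx⟩ : ∃ x, x + k = 2 * n + 1 := ⟨2 * n + 1 - k, by omega⟩
  have hxs : Nat.sqrt (2 * n ^ 2 + 2 * n + 1) < x := by omega
  rw [Nat.sqrt_lt'] at hxs
  obtain ⟨t, ht⟩ : ∃ t, x = 2 * t ∨ x = 2 * t + 1 := ⟨x / 2, by omega⟩
  have htn : t ≤ n := by omega
  have b1 := block_card_le htn A h1 h2
  have b2 := block_card_ge htn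
  have b3 := inv_card (Finset.univ.filter (fun i : Fin n => (i : ℕ) < t ∧ n - t ≤ (i : ℕ)))
  rw [mid_card htn] at b3
  set e := (((Finset.univ.filter (fun i : Fin n => (i : ℕ) < t)) ×ˢ
      (Finset.univ.filter (fun j : Fin n => n - t ≤ (j : ℕ)))).filter
        (fun p => p.1 ≤ p.2)).card
  set w := ((Finset.univ.filter
          (fun i : Fin n => (i : ℕ) < t ∧ n - t ≤ (i : ℕ)) ×ˢ Finset.univ.filter
          (fun i : Fin n => (i : ℕ) < t ∧ n - t ≤ (i : ℕ))).filter (fun p => p.2 < p.1)).card
  rcases Nat.lt_or_ge (2 * t) n with h3 | h3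
  · have : x ≤ n := by omega
    nlinarith
  · obtain ⟨m, hm⟩ := Nat.exists_eq_add_of_le h3
    have h4 : t - (n - t) = m := by omega
    rw [h4] at b3
    have h5 : 2 * w + m = m * m := by
      have : m ≤ m * m := by nlinarith [Nat.zero_le m, Nat.le_mul_self m]
      omega
    have h6 : (2 * t : ℤ) = n + m := by exact_mod_cast hm
    have h7 : (2 * w + m : ℤ) = m * m := by exact_mod_cast h5
    have h8 : (t * t : ℤ) ≤ k * t + w := by
      have : t * t ≤ k * t + w := b2.trans (Nat.add_le_add_right b1 w)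
      exact_mod_cast this
    have h9 : (x : ℤ) + k = 2 * n + 1 := by exact_mod_cast hx
    have h10 : (2 * (n : ℤ) ^ 2 + 2 * n + 1) < x ^ 2 := by exact_mod_cast hxs
    have h11 : (m : ℤ) = 2 * t - n := by linarith
    have h12 : (k : ℤ) = 2 * n + 1 - x := by linarith
    rw [h11] at h7
    rw [h12] at h8
    rcases ht with h | h
    · have h' : (x : ℤ) = 2 * t := by exact_mod_cast h
      rw [h'] at h8 h10
      nlinarith
    · have h' : (x : ℤ) = 2 * t + 1 := by exact_mod_cast h
      rw [h'] at h8 h10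
      nlinarith

/-! ### Upper bound -/

/-- Numerical form of Hall's condition. -/
theorem numeric {n r c a b m x : ℤ} (hn : 1 ≤ n) (hrc : r = c ∨ r = c + 1) (hc : 0 ≤ c)
    (hx : x = 2 * n + 1 - (r + c)) (hx2 : x ^ 2 ≤ 2 * n ^ 2 + 2 * n + 1) (hx0 : 0 ≤ x)
    (ha : 0 ≤ a) (hb : 0 ≤ b) (hm0 : 0 ≤ m) (hm : a + b ≤ n + m) :
    2 * (a * b) ≤ 2 * (r * a) + 2 * (c * b) + (m * m - m) := by
  have hmm : 0 ≤ m * m - m := by
    rcases hm0.eq_or_lt with h | h
    · rw [← h]; norm_num
    · nlinarith
  have hk : 2 * x ≤ 3 * n + 1 := by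
    by_contra hcon
    push Not at hcon
    have h1 : 3 * n + 2 ≤ 2 * x := by omega
    have h2 : (3 * n + 2) ^ 2 ≤ (2 * x) ^ 2 := by
      apply pow_le_pow_left₀ (by linarith) h1
    have h3 : n * (n + 4) ≤ 0 := by nlinarith
    nlinarith
  rcases le_or_gt (a + b) n with h | h
  · -- few rows and columns
    have h5 : a + b ≤ 2 * (r + c) - 1 := by linarith
    rcases hrc with hr | hr
    · subst hr
      nlinarith [sq_nonneg (a - b), mul_nonneg (add_nonneg ha hb) (by linarith : 0 ≤ 4 * r - 1 - (a + b))]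
    · subst hr
      have key : (a + b) ^ 2 ≤ 2 * (2 * c + 1) * (a + b) + (a - b + 1) ^ 2 - 1 := by
        rcases (add_nonneg ha hb).eq_or_lt with h6 | h6
        · have : a = 0 := by linarith
          have : b = 0 := by linarith
          subst a b
          norm_num
        · have h7 : (a + b) * (a + b) ≤ (2 * (c + 1 + c) - 1) * (a + b) :=
            mul_le_mul_of_nonneg_right h5 (by linarith)
          nlinarith [sq_nonneg (a - b + 1)]
      nlinarith
  · -- many rows and columns
    have h6 : (a + b - n) * (a + b - n) - (a + b - n) ≤ m * m - m := by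
      have : a + b - n ≤ m := by linarith
      nlinarith
    suffices hs : 2 * (a * b) ≤ 2 * (r * a) + 2 * (c * b) +
        ((a + b - n) * (a + b - n) - (a + b - n)) by linarith
    rcases hrc with hr | hr
    · subst hr
      have key : 0 ≤ (a + b - x) ^ 2 - x ^ 2 + 2 * n * (n + 1) + (a - b) ^ 2 := by
        rcases eq_or_ne (a + b) x with h7 | h7
        · have h8 : a - b ≠ 0 := by
            intro h9
            have : a = b := by linarith
            omega
          have h9 : 1 ≤ (a - b) ^ 2 := by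
            have := sq_pos_of_ne_zero h8
            linarith
          nlinarith
        · have h8 : 1 ≤ (a + b - x) ^ 2 := by
            have := sq_pos_of_ne_zero (sub_ne_zero.2 h7)
            linarith
          nlinarith [sq_nonneg (a - b)]
      rw [hx] at key
      nlinarith
    · subst hr
      have hx3 : x ^ 2 ≤ 2 * n ^ 2 + 2 * n := by
        have e1 : x = 2 * (n - c) := by linarith
        rw [e1] at hx2 ⊢
        have e2 : Even (n * (n + 1)) := Int.even_mul_succ_self n
        obtain ⟨u, hu⟩ := e2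
        have e3 : 4 * (n - c) ^ 2 ≤ 4 * u + 1 := by nlinarith
        have e4 : (n - c) ^ 2 ≤ u := by omega
        nlinarith
      have key : 0 ≤ (a + b - x) ^ 2 - x ^ 2 + 2 * n * (n + 1) + (a - b) ^ 2 + 2 * (a - b) := by
        rcases eq_or_ne (a - b) (-1) with h7 | h7
        · have h8 : a + b - x ≠ 0 := by omega
          have h9 : 1 ≤ (a + b - x) ^ 2 := by
            have := sq_pos_of_ne_zero h8
            linarith
          rw [h7]
          nlinarith
        · have h8 : 0 ≤ (a - b) * (a - b + 2) := by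
            rcases le_or_gt 0 (a - b) with h9 | h9
            · positivity
            · have : a - b + 2 ≤ 0 := by omega
              nlinarith
          nlinarith [sq_nonneg (a + b - x)]
      rw [hx] at key
      nlinarith

theorem hall_cover {n r c : ℕ}
    (H : ∀ a b m : ℕ, a ≤ n → b ≤ n → a + b ≤ n + m →
      2 * (a * b) ≤ 2 * (r * a) + 2 * (c * b) + (m * m - m)) : Covers n (r + c) := by
  classical
  let ι := {p : Fin n × Fin n // p.1 ≤ p.2}
  let t : ι → Finset ((Fin n × Fin r) ⊕ (Fin n × Fin c)) := fun p =>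
    (({p.1.1} : Finset (Fin n)) ×ˢ Finset.univ).disjSum (({p.1.2} : Finset (Fin n)) ×ˢ Finset.univ)
  have hall : ∀ s : Finset ι, s.card ≤ (s.biUnion t).card := by
    intro s
    set A := s.image (fun p => p.1.1) with hA
    set B := s.image (fun p => p.1.2) with hB
    have h1 : (A ×ˢ (Finset.univ : Finset (Fin r))).disjSum (B ×ˢ (Finset.univ : Finset (Fin c)))
        ⊆ s.biUnion t := by
      intro q hq
      rw [Finset.mem_biUnion]
      rcases q with ⟨i, a⟩ | ⟨j, b⟩
      · rw [Finset.inl_mem_disjSum, Finset.mem_product, hA, Finset.mem_image] at hq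
        obtain ⟨⟨p, hp, hpi⟩, _⟩ := hq
        refine ⟨p, hp, ?_⟩
        simp only [t]
        rw [Finset.inl_mem_disjSum, Finset.mem_product, Finset.mem_singleton]
        exact ⟨hpi.symm, Finset.mem_univ _⟩
      · rw [Finset.inr_mem_disjSum, Finset.mem_product, hB, Finset.mem_image] at hq
        obtain ⟨⟨p, hp, hpi⟩, _⟩ := hq
        refine ⟨p, hp, ?_⟩
        simp only [t]
        rw [Finset.inr_mem_disjSum, Finset.mem_product, Finset.mem_singleton]
        exact ⟨hpi.symm, Finset.mem_univ _⟩
    have h2 := Finset.card_le_card h1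
    rw [Finset.card_disjSum, Finset.card_product, Finset.card_product, Finset.card_univ,
      Finset.card_univ, Fintype.card_fin, Fintype.card_fin] at h2
    have h3 : s.card ≤ ((A ×ˢ B).filter (fun p => p.1 ≤ p.2)).card := by
      apply Finset.card_le_card_of_injOn (fun p => p.1)
      · intro p hp
        simp only [Finset.coe_filter, Finset.mem_product, Set.mem_ofPred_eq]
        exact ⟨⟨Finset.mem_image_of_mem _ hp, Finset.mem_image_of_mem _ hp⟩, p.2⟩
      · intro p _ q _ h
        exact Subtype.ext h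
    have h4 := Finset.card_filter_add_card_filter_not (s := A ×ˢ B) (fun p => p.1 ≤ p.2)
    have h5 : (((A ∩ B) ×ˢ (A ∩ B)).filter (fun p => p.2 < p.1)).card ≤
        ((A ×ˢ B).filter (fun p => ¬ p.1 ≤ p.2)).card := by
      apply Finset.card_le_card
      intro p hp
      simp only [Finset.mem_filter, Finset.mem_product, Finset.mem_inter, not_le] at hp ⊢
      exact ⟨⟨hp.1.1.1, hp.1.2.2⟩, hp.2⟩
    have h6 := inv_card (A ∩ B)
    have h7 : A.card + B.card ≤ n + (A ∩ B).card := by
      rw [← Finset.card_union_add_card_inter]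
      apply Nat.add_le_add_right
      have := Finset.card_le_univ (A ∪ B)
      rwa [Fintype.card_fin] at this
    have h8 := H A.card B.card (A ∩ B).card (by simpa using Finset.card_le_univ A)
      (by simpa using Finset.card_le_univ B) h7
    rw [Finset.card_product] at h4
    rw [mul_comm A.card r, mul_comm B.card c] at h2
    omega
  obtain ⟨f, hf, hft⟩ := (Finset.all_card_le_biUnion_card_iff_exists_injective t).1 hall
  rw [covers_iff]
  let F : Fin r → Fin n → Fin n := fun a i =>
    if h : ∃ j, ∃ hij : i ≤ j, f ⟨(i, j), hij⟩ = Sum.inl (i, a) then h.choose else i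
  let G : Fin c → Fin n → Fin n := fun b j =>
    if h : ∃ i, ∃ hij : i ≤ j, f ⟨(i, j), hij⟩ = Sum.inr (j, b) then h.choose else j
  refine ⟨Fin.append (fun a => transf (F a)) (fun b => (transf (G b))ᵀ), ?_, ?_⟩
  · intro l
    refine Fin.addCases (fun a => ?_) (fun b => ?_) l
    · left; exact ⟨F a, by rw [Fin.append_left]⟩
    · right; exact ⟨G b, by rw [Fin.append_right]⟩
  · intro i j hij
    have h1 := hft ⟨(i, j), hij⟩
    rcases hfp : f ⟨(i, j), hij⟩ with ⟨i', a⟩ | ⟨j', b⟩
    · rw [hfp] at h1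
      simp only [t] at h1
      rw [Finset.inl_mem_disjSum, Finset.mem_product, Finset.mem_singleton] at h1
      have h2 : i' = i := h1.1
      subst h2
      refine ⟨Fin.castAdd c a, ?_⟩
      rw [Fin.append_left]
      simp only [transf, decide_eq_true_eq]
      have hex : ∃ j, ∃ hij : i' ≤ j, f ⟨(i', j), hij⟩ = Sum.inl (i', a) := ⟨j, hij, hfp⟩
      simp only [F]
      rw [dif_pos hex]
      obtain ⟨h3, h4⟩ := hex.choose_spec
      have h5 := hf (h4.trans hfp.symm)
      have h6 := congrArg (fun p : ι => p.1.2) h5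
      exact h6
    · rw [hfp] at h1
      simp only [t] at h1
      rw [Finset.inr_mem_disjSum, Finset.mem_product, Finset.mem_singleton] at h1
      have h2 : j' = j := h1.1
      subst h2
      refine ⟨Fin.natAdd r b, ?_⟩
      rw [Fin.append_right]
      simp only [transf, Matrix.transpose_apply, decide_eq_true_eq]
      have hex : ∃ i, ∃ hij : i ≤ j', f ⟨(i, j'), hij⟩ = Sum.inr (j', b) := ⟨i, hij, hfp⟩
      simp only [G]
      rw [dif_pos hex]
      obtain ⟨h3, h4⟩ := hex.choose_spec
      have h5 := hf (h4.trans hfp.symm)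
      have h6 := congrArg (fun p : ι => p.1.1) h5
      exact h6

theorem upper (n : ℕ) (hn : 1 ≤ n) : Covers n (2 * n + 1 - Nat.sqrt (2 * n ^ 2 + 2 * n + 1)) := by
  set x := Nat.sqrt (2 * n ^ 2 + 2 * n + 1) with hx
  have hx2 : x ^ 2 ≤ 2 * n ^ 2 + 2 * n + 1 := by
    rw [hx, sq]; exact Nat.sqrt_le _
  have hxle : x ≤ 2 * n + 1 := by
    by_contra hcon
    push Not at hcon
    nlinarith
  obtain ⟨k, hk⟩ : ∃ k, k = 2 * n + 1 - x := ⟨_, rfl⟩
  rw [← hk]
  obtain ⟨c, hc⟩ : ∃ c, k = c + c ∨ k = (c + 1) + c := ⟨k / 2, by omega⟩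
  have main : ∀ r : ℕ, (r = c ∨ r = c + 1) → k = r + c → Covers n (r + c) := by
    intro r hr hkr
    apply hall_cover
    intro a b m _ _ hm
    have hmm : m ≤ m * m := Nat.le_mul_self m
    have := numeric (n := (n : ℤ)) (r := r) (c := c) (a := a) (b := b) (m := m) (x := x)
      (by exact_mod_cast hn) (by rcases hr with h | h <;> [left; right] <;> exact_mod_cast h)
      (by positivity) (by omega) (by exact_mod_cast hx2) (by positivity) (by positivity)
      (by positivity) (by positivity) (by exact_mod_cast hm)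
    zify [hmm]
    exact this
  rcases hc with h | h
  · rw [h]; exact main c (Or.inl rfl) h
  · rw [h]; exact main (c + 1) (Or.inr rfl) h

/-- **Full answer to Q1**: `m(n) = 2n + 1 - ⌊√(2n²+2n+1)⌋` for all `n ≥ 1`. -/
theorem result (n : ℕ) (hn : 1 ≤ n) :
    IsLeast {k | Covers n k} (2 * n + 1 - Nat.sqrt (2 * n ^ 2 + 2 * n + 1)) := by
  refine ⟨upper n hn, ?_⟩
  intro k hk
  have := lower hk
  omega

end Pool.Agent.Results.MP_88b6d1_co.ExactValue
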